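import Mathlib

/-! Package TRI of project MB: the joint weights of commuting complex matrices. -/

set_option autoImplicit false

namespace Pool.Agent.P8H53.MB

open Module

theorem joint_eig {V ι : Type*} [AddCommGroup V] [Module ℂ V] [FiniteDimensional ℂ V] [Nontrivial V]
    (f : ι → End ℂ V) (hf : ∀ i j, f i * f j = f j * f i) :
    ∃ (u : V) (μ : ι → ℂ), u ≠ 0 ∧ ∀ i, f i u = μ i • u := by
  let S : Set (Submodule ℂ V) := {W | W ≠ ⊥ ∧ ∀ i, ∀ x ∈ W, f i x ∈ W}
  have hS : S.Nonempty := ⟨⊤, top_ne_bot, fun i x _ => Submodule.mem_top⟩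
  obtain ⟨W, hW, hmin⟩ := (wellFounded_lt : WellFounded ((· < ·) : Submodule ℂ V → _ → Prop)).has_min
    S hS
  obtain ⟨hW0, hWf⟩ := hW
  have hNT : Nontrivial W := Submodule.nontrivial_iff_ne_bot.2 hW0
  have key : ∀ i, ∃ c : ℂ, ∀ x ∈ W, f i x = c • x := by
    intro i
    obtain ⟨c, hc⟩ := Module.End.exists_eigenvalue ((f i).restrict (hWf i))
    obtain ⟨w, hw⟩ := hc.exists_hasEigenvector
    have hw1 : f i w = c • (w : V) := by
      have h1 := hw.apply_eq_smul
      have h2 := congrArg (fun z : W => (z : V)) h1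
      simpa using h2
    refine ⟨c, ?_⟩
    let E : Submodule ℂ V := W ⊓ LinearMap.ker (f i - c • (1 : End ℂ V))
    have hE : E ∈ S := by
      refine ⟨?_, ?_⟩
      · intro h
        have h1 : (w : V) ∈ E := by
          refine ⟨w.2, ?_⟩
          rw [SetLike.mem_coe, LinearMap.mem_ker, LinearMap.sub_apply, hw1]
          simp
        rw [h, Submodule.mem_bot] at h1
        exact hw.2 (by simpa using h1)
      · intro j x hx
        refine ⟨hWf j x hx.1, ?_⟩
        have h1 : f i x = c • x := by
          have h2 := hx.2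
          rw [SetLike.mem_coe, LinearMap.mem_ker, LinearMap.sub_apply, sub_eq_zero] at h2
          simpa using h2
        rw [SetLike.mem_coe, LinearMap.mem_ker, LinearMap.sub_apply, sub_eq_zero]
        have h3 : f i (f j x) = f j (f i x) := by
          have h4 := congrArg (fun g : End ℂ V => g x) (hf i j)
          simpa using h4
        rw [h3, h1, map_smul]
        simp
    have hEW : ¬ E < W := hmin E hE
    have hEW' : W ≤ E := by
      by_contra h
      exact hEW ⟨inf_le_left, h⟩
    intro x hx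
    have h2 := (hEW' hx).2
    rw [SetLike.mem_coe, LinearMap.mem_ker, LinearMap.sub_apply, sub_eq_zero] at h2
    simpa using h2
  choose μ hμ using key
  obtain ⟨u, hu, hu0⟩ := Submodule.exists_mem_ne_zero_of_ne_bot hW0
  exact ⟨u, μ, hu0, fun i => hμ i u hu⟩

theorem weights {Γ : Type*} [AddCommMonoid Γ] (n : ℕ) : ∀ (V : Type) [AddCommGroup V] [Module ℂ V]
    [FiniteDimensional ℂ V], finrank ℂ V = n → ∀ f : Γ → End ℂ V, f 0 = 1 →
    (∀ u v, f (u + v) = f u * f v) → ∃ χ : Fin n → Γ → ℂ,
    (∀ j, χ j 0 = 1 ∧ ∀ u v, χ j (u + v) = χ j u * χ j v) ∧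
    (∀ v x, LinearMap.det (x • (1 : End ℂ V) - f v) = ∏ j, (x - χ j v)) ∧
    ∀ (μ : Γ → ℂ) (u : V), u ≠ 0 → (∀ v, f v u = μ v • u) → ∃ j, μ = χ j := by
  induction n with
  | zero =>
    intro V _ _ _ hV f h0 hf
    have hs : Subsingleton V := finrank_zero_iff.1 hV
    refine ⟨fun _ _ => 0, fun j => j.elim0, fun v x => ?_, fun μ u hu => absurd (Subsingleton.elim _ _) hu⟩
    rw [Finset.univ_eq_empty, Finset.prod_empty, LinearMap.det_eq_one_of_subsingleton]
  | succ n ih =>
    intro V _ _ _ hV f h0 hf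
    have hNT : Nontrivial V := Module.nontrivial_of_finrank_pos (R := ℂ) (by omega)
    have hcomm : ∀ u v, f u * f v = f v * f u := fun u v => by rw [← hf, ← hf, add_comm]
    obtain ⟨u₀, χ₀, hu₀, he₀⟩ := joint_eig f hcomm
    have hinv : ∀ v, Submodule.span ℂ {u₀} ≤ (Submodule.span ℂ {u₀}).comap (f v) := by
      intro v
      rw [Submodule.span_le, Set.singleton_subset_iff]
      rw [SetLike.mem_coe, Submodule.mem_comap, he₀]
      exact Submodule.smul_mem _ _ (Submodule.mem_span_singleton_self _)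
    set W := Submodule.span ℂ {u₀} with hWdef
    have hW1 : finrank ℂ W = 1 := finrank_span_singleton hu₀
    have hQ : finrank ℂ (V ⧸ W) = n := by
      have := Submodule.finrank_quotient_add_finrank W
      omega
    let g : Γ → End ℂ (V ⧸ W) := fun v => W.mapQ W (f v) (hinv v)
    have hg : ∀ v (x : V), g v (Submodule.Quotient.mk x) = Submodule.Quotient.mk (f v x) :=
      fun v x => rfl
    obtain ⟨χ, hχ, hdet, heig⟩ := ih (V ⧸ W) hQ g (by
      refine LinearMap.ext fun y => ?_
      obtain ⟨x, rfl⟩ := Submodule.Quotient.mk_surjective W y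
      rw [hg, h0]
      rfl) (fun u v => by
      refine LinearMap.ext fun y => ?_
      obtain ⟨x, rfl⟩ := Submodule.Quotient.mk_surjective W y
      rw [Module.End.mul_apply, hg, hg, hg, hf]
      rfl)
    have hχ₀ : χ₀ 0 = 1 ∧ ∀ u v, χ₀ (u + v) = χ₀ u * χ₀ v := by
      constructor
      · have h1 := he₀ 0
        rw [h0, Module.End.one_apply] at h1
        have h2 : (χ₀ 0 - 1) • u₀ = 0 := by rw [sub_smul, one_smul, ← h1, sub_self]
        rcases smul_eq_zero.1 h2 with h3 | h3
        · exact sub_eq_zero.1 h3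
        · exact absurd h3 hu₀
      · intro u v
        have h1 := he₀ (u + v)
        rw [hf, Module.End.mul_apply, he₀ v, map_smul, he₀ u, smul_smul] at h1
        have h2 : (χ₀ (u + v) - χ₀ v * χ₀ u) • u₀ = 0 := by rw [sub_smul, ← h1, sub_self]
        rcases smul_eq_zero.1 h2 with h3 | h3
        · rw [sub_eq_zero.1 h3, mul_comm]
        · exact absurd h3 hu₀
    refine ⟨Fin.cons χ₀ χ, ?_, ?_, ?_⟩
    · intro j
      refine Fin.cases ?_ (fun j => ?_) j
      · simpa using hχ₀
      · simpa using hχ j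
    · intro v x
      rw [Fin.prod_univ_succ, Fin.cons_zero]
      simp only [Fin.cons_succ]
      have hinv' : W ≤ W.comap (x • (1 : End ℂ V) - f v) := by
        intro w hw
        rw [Submodule.mem_comap, LinearMap.sub_apply]
        exact W.sub_mem (W.smul_mem _ hw) (hinv v hw)
      rw [LinearMap.det_eq_det_mul_det W _ hinv']
      congr 1
      · have h1 : LinearMap.restrict (p := W) (q := W) (x • (1 : End ℂ V) - f v) hinv' =
            (x - χ₀ v) • LinearMap.id := by
          refine LinearMap.ext fun w => Subtype.ext ?_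
          obtain ⟨a, ha⟩ := Submodule.mem_span_singleton.1 w.2
          have h2 : f v (a • u₀) = χ₀ v • (a • u₀) := by rw [map_smul, he₀, smul_comm]
          rw [LinearMap.coe_restrict_apply, LinearMap.sub_apply, ← ha, h2]
          simp only [LinearMap.smul_apply, Module.End.one_apply, LinearMap.id_apply,
            Submodule.coe_smul, ← ha]
          rw [sub_smul]
        rw [h1, LinearMap.det_smul, hW1, LinearMap.det_id, pow_one, mul_one]
      · rw [← hdet v x]
        congr 1
        refine LinearMap.ext fun y => ?_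
        obtain ⟨z, rfl⟩ := Submodule.Quotient.mk_surjective W y
        rfl
    · intro μ u hu hμ
      by_cases hmem : u ∈ W
      · refine ⟨0, ?_⟩
        rw [Fin.cons_zero]
        obtain ⟨a, ha⟩ := Submodule.mem_span_singleton.1 hmem
        have ha0 : a ≠ 0 := by
          rintro rfl
          exact hu (by rw [← ha, zero_smul])
        funext v
        have h1 := hμ v
        rw [← ha, map_smul, he₀, smul_smul, smul_smul] at h1
        have h2 : (a * χ₀ v - μ v * a) • u₀ = 0 := by rw [sub_smul, h1, sub_self]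
        rcases smul_eq_zero.1 h2 with h3 | h3
        · have h4 : a * (χ₀ v - μ v) = 0 := by linear_combination h3
          rcases mul_eq_zero.1 h4 with h5 | h5
          · exact absurd h5 ha0
          · exact (sub_eq_zero.1 h5).symm
        · exact absurd h3 hu₀
      · obtain ⟨j, hj⟩ := heig μ (Submodule.Quotient.mk u)
          (fun h => hmem ((Submodule.Quotient.mk_eq_zero W).1 h))
          (fun v => by rw [hg, hμ v]; rfl)
        exact ⟨j.succ, by rw [Fin.cons_succ]; exact hj⟩

theorem tri :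
    ∀ (r d : ℕ) (A : (Fin r → ℤ) → Matrix (Fin d) (Fin d) ℂ), A 0 = 1 →
    (∀ u v, A (u + v) = A u * A v) → ∃ χ : Fin d → (Fin r → ℤ) → ℂ,
    (∀ j, χ j 0 = 1 ∧ ∀ u v, χ j (u + v) = χ j u * χ j v) ∧
    (∀ v, (A v).charpoly = ∏ j, (Polynomial.X - Polynomial.C (χ j v))) ∧
    ∀ (μ : (Fin r → ℤ) → ℂ) (u : Fin d → ℂ), u ≠ 0 → (∀ v, (A v).mulVec u = μ v • u) →
      ∃ j, μ = χ j := by
  intro r d A h0 hA
  obtain ⟨χ, h1, h2, h3⟩ := weights (Γ := Fin r → ℤ) d (Fin d → ℂ) (by simp)
    (fun v => Matrix.toLin' (A v)) (by rw [h0, Matrix.toLin'_one]; rfl)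
    (fun u v => by rw [hA, Matrix.toLin'_mul]; rfl)
  refine ⟨χ, h1, fun v => ?_, fun μ u hu hμ => h3 μ u hu fun v => ?_⟩
  · refine Polynomial.funext fun x => ?_
    rw [Matrix.eval_charpoly, Polynomial.eval_prod]
    simp only [Polynomial.eval_sub, Polynomial.eval_X, Polynomial.eval_C]
    rw [← h2 v x, ← LinearMap.det_toLin']
    congr 1
    rw [map_sub]
    congr 1
    rw [Matrix.scalar_apply, ← Matrix.smul_one_eq_diagonal, map_smul, Matrix.toLin'_one]
    rfl
  · rw [Matrix.toLin'_apply]
    exact hμ v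

end Pool.Agent.P8H53.MB
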