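import Pool.Agent.P8H34.MB.Stm
import Pool.Agent.P8H53.MB.TriCore

/-! Package TRI of project MB. -/

namespace Pool.Agent.P8H53.MB

theorem t_TRI : Pool.Agent.P8H34.MB.S_TRI := tri

end Pool.Agent.P8H53.MB
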